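import Pool.Agent.Helper60.FF.StmtsC

/-!
# R1A: generic constants and the orders of `H m (c i) / H m (c j)`

Blueprint: /team-store/ff_blueprint.md, section II.6 (d), (e)
-/

set_option autoImplicit false

namespace Pool.Agent.Helper60.FF

open Polynomial

section

variable {p : ℕ} [hp : Fact p.Prime] {n : ℕ}

theorem r1a_fin (E₀ : IntermediateField ℚ_[p] ℂ_[p]) (h₀ : FiniteDimensional ℚ_[p] E₀)
    (x y z : ℂ_[p]) (hx : IsAlgebraic ℚ_[p] x) (hy : IsAlgebraic ℚ_[p] y) (hz : IsAlgebraic ℚ_[p] z) :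
    ∃ E : IntermediateField ℚ_[p] ℂ_[p], FiniteDimensional ℚ_[p] E ∧ E₀ ≤ E ∧ x ∈ E ∧ y ∈ E ∧
      z ∈ E := by
  have h1 : FiniteDimensional ℚ_[p] (IntermediateField.adjoin ℚ_[p] ({x, y, z} : Set ℂ_[p])) := by
    apply IntermediateField.finiteDimensional_adjoin
    intro w hw
    rcases hw with rfl | rfl | hw
    · exact hx.isIntegral
    · exact hy.isIntegral
    · rw [Set.mem_singleton_iff] at hw
      rw [hw]
      exact hz.isIntegral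
  refine ⟨E₀ ⊔ IntermediateField.adjoin ℚ_[p] ({x, y, z} : Set ℂ_[p]), ?_, le_sup_left, ?_, ?_, ?_⟩
  · exact IntermediateField.finiteDimensional_sup _ _
  · exact (le_sup_right : _ ≤ E₀ ⊔ _) (IntermediateField.subset_adjoin _ _ (by simp))
  · exact (le_sup_right : _ ≤ E₀ ⊔ _) (IntermediateField.subset_adjoin _ _ (by simp))
  · exact (le_sup_right : _ ≤ E₀ ⊔ _) (IntermediateField.subset_adjoin _ _ (by simp))

/-- small elements of `A` -/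
theorem r1a_small (A : Subfield ℂ_[p]) (r : ℝ) (hr : 0 < r) :
    ∃ ϖ : A, ϖ ≠ 0 ∧ ‖(ϖ : ℂ_[p])‖ < r := by
  have h1 : ((p : ℝ)⁻¹) < 1 := inv_lt_one_of_one_lt₀ (by exact_mod_cast hp.out.one_lt)
  obtain ⟨k, hk⟩ := exists_pow_lt_of_lt_one hr h1
  refine ⟨(p : A) ^ k, ?_, ?_⟩
  · apply pow_ne_zero
    intro h
    have h2 : ((p : A) : ℂ_[p]) = 0 := by rw [h]; rfl
    have h3 : (p : ℂ_[p]) = 0 := by simpa using h2
    have h4 := norm_p (p := p)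
    rw [h3, norm_zero] at h4
    have h5 : (0 : ℝ) < (p : ℝ)⁻¹ := inv_pos.2 (by exact_mod_cast hp.out.pos)
    rw [← h4] at h5
    exact lt_irrefl _ h5
  · have h2 : (((p : A) ^ k : A) : ℂ_[p]) = (p : ℂ_[p]) ^ k := by simp
    rw [h2, norm_pow, norm_p]
    exact hk

theorem r1a_deg {K : KD p n} {a ϖ : ℂ_[p]} {φ : Polynomial (RF p)} (h : CT K a ϖ φ) :
    φ.natDegree ≤ n := by
  have h1 := h.2.1
  rwa [natDegree_map_eq_of_injective C_injective] at h1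

/-- a natural number at which a polynomial of degree at most `n < p` does not vanish -/
theorem r1a_nat (hn : n < p) (φ : Polynomial (RF p)) (h0 : φ ≠ 0) (hd : φ.natDegree ≤ n) :
    ∃ a : ℕ, φ.eval (a : RF p) ≠ 0 := by
  classical
  by_contra hc
  push Not at hc
  have h1 : (Finset.image (fun a : ℕ => (a : RF p)) (Finset.range (n + 1))).card = n + 1 := by
    rw [Finset.card_image_of_injOn, Finset.card_range]
    intro a ha b hb hab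
    simp only [Finset.coe_range, Set.mem_Iio] at ha hb
    have hab' : ((a : ℕ) : RF p) = ((b : ℕ) : RF p) := hab
    rw [CharP.natCast_eq_natCast (RF p) p] at hab'
    exact Nat.ModEq.eq_of_lt_of_lt hab' (by omega) (by omega)
  apply h0
  apply Polynomial.eq_zero_of_natDegree_lt_card_of_eval_eq_zero' φ
    (Finset.image (fun a : ℕ => (a : RF p)) (Finset.range (n + 1)))
  · intro x hx
    obtain ⟨a, _, rfl⟩ := Finset.mem_image.1 hx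
    exact hc a
  · rw [h1]
    omega

/-- the local data of a constant `c` with polynomial `R` -/
def R1aLoc (K : KD p n) (c : K.A) (R : Polynomial K.A) : Prop :=
  ∀ v : K.A, ∃ (φ : Polynomial (RF p)) (r₀ : ℝ), 0 < r₀ ∧ φ ≠ 0 ∧
    (∀ ϖ : K.A, ϖ ≠ 0 → ‖(ϖ : ℂ_[p])‖ < r₀ → CT K v ϖ φ) ∧
    ∀ c' : K.A, ‖(c' : ℂ_[p])‖ ≤ 1 → φ.eval (res (c' : ℂ_[p])) ≠ 0 → ∀ m : ℕ, 0 < m →
      (m : ℤ) ∣ ordv K.A v (K.H m (RatFunc.C c)) - ordv K.A v (K.H m (RatFunc.C c')) -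
        R.rootMultiplicity v

theorem r1a_comb (pp : PP p n) (hDIC : ST_DIC) (K : KD p n) (c₁ c₂ : K.A)
    (R₁ R₂ : Polynomial K.A) (h₁ : R1aLoc K c₁ R₁) (h₂ : R1aLoc K c₂ R₂) (m : ℕ) (hm : 0 < m)
    (v : K.A) :
    (m : ℤ) ∣ ordv K.A v (K.H m (RatFunc.C c₁)) - ordv K.A v (K.H m (RatFunc.C c₂)) -
      ((R₁.rootMultiplicity v : ℤ) - (R₂.rootMultiplicity v : ℤ)) := by
  obtain ⟨φ₁, r₁, hr₁, h0₁, hC₁, hD₁⟩ := h₁ v
  obtain ⟨φ₂, r₂, hr₂, h0₂, hC₂, hD₂⟩ := h₂ v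
  obtain ⟨ϖ, hϖ, hϖr⟩ := r1a_small K.A (min r₁ r₂) (lt_min hr₁ hr₂)
  have hc1 := hC₁ ϖ hϖ (hϖr.trans_le (min_le_left _ _))
  have hc2 := hC₂ ϖ hϖ (hϖr.trans_le (min_le_right _ _))
  obtain ⟨s, hs, hs2⟩ := ((hDIC p n pp K).1 v ϖ v ϖ hϖ hϖ rfl
    (by rw [sub_self, norm_zero]; exact norm_nonneg _) φ₁ hc1).2 φ₂ hc2
  have hn : n < p := by
    have := pp.big
    nlinarith [Nat.zero_le n]
  obtain ⟨a, ha⟩ := r1a_nat hn φ₁ h0₁ (r1a_deg hc1)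
  have hcast : (((a : K.A)) : ℂ_[p]) = (a : ℂ_[p]) := by simp
  have hres : res (((a : K.A)) : ℂ_[p]) = (a : RF p) := by rw [hcast, res_natCast]
  have hnorm : ‖(((a : K.A)) : ℂ_[p])‖ ≤ 1 := by
    rw [hcast]
    exact (mem_OO _).1 (natCast_mem (OO p) a)
  have e1 := hD₁ (a : K.A) hnorm (by rw [hres]; exact ha) m hm
  have e2 := hD₂ (a : K.A) hnorm (by
    rw [hres, hs2, eval_mul, eval_C]
    exact mul_ne_zero hs ha) m hm
  have e3 := dvd_sub e1 e2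
  have e4 : ordv K.A v (K.H m (RatFunc.C c₁)) - ordv K.A v (K.H m (RatFunc.C c₂)) -
      ((R₁.rootMultiplicity v : ℤ) - (R₂.rootMultiplicity v : ℤ)) =
      (ordv K.A v (K.H m (RatFunc.C c₁)) - ordv K.A v (K.H m (RatFunc.C (a : K.A))) -
        R₁.rootMultiplicity v) -
      (ordv K.A v (K.H m (RatFunc.C c₂)) - ordv K.A v (K.H m (RatFunc.C (a : K.A))) -
        R₂.rootMultiplicity v) := by ring
  rw [e4]
  exact e3

theorem r1a_rm {F : Type} [Field F] {ι : Type} (s : Finset ι) (P : ι → Polynomial F)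
    (hP : ∀ i ∈ s, (P i).Monic) (v : F) (i₀ : ι) (h : ∀ i ∈ s, i ≠ i₀ → (P i).eval v ≠ 0)
    (hi₀ : i₀ ∈ s) : (∏ i ∈ s, P i).rootMultiplicity v = (P i₀).rootMultiplicity v := by
  classical
  have h1 : (∏ i ∈ s.erase i₀, P i).rootMultiplicity v = 0 := by
    apply rootMultiplicity_eq_zero
    intro hc
    rw [IsRoot.def, eval_prod, Finset.prod_eq_zero_iff] at hc
    obtain ⟨i, hi, hi2⟩ := hc
    rw [Finset.mem_erase] at hi
    exact h i hi.2 hi.1 hi2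
  have h2 : P i₀ * ∏ i ∈ s.erase i₀, P i ≠ 0 := by
    apply mul_ne_zero (hP i₀ hi₀).ne_zero
    exact Finset.prod_ne_zero_iff.2 fun i hi => (hP i (Finset.mem_of_mem_erase hi)).ne_zero
  rw [← Finset.mul_prod_erase s P hi₀, rootMultiplicity_mul h2, h1, add_zero]

theorem r1a_rm0 {F : Type} [Field F] {ι : Type} (s : Finset ι) (P : ι → Polynomial F) (v : F)
    (h : ∀ i ∈ s, (P i).eval v ≠ 0) : (∏ i ∈ s, P i).rootMultiplicity v = 0 := by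
  apply rootMultiplicity_eq_zero
  intro hc
  rw [IsRoot.def, eval_prod, Finset.prod_eq_zero_iff] at hc
  obtain ⟨i, hi, hi2⟩ := hc
  exact h i hi hi2

theorem r1a_one (pp : PP p n) (hFND : ST_FND) (hDSK : ST_DSK) (hL4 : ST_L4) (hDNS : ST_DNS)
    (hRDU : ST_RDU) (K : KD p n) :
    ∃ Γ : Set (RF p), Γ.Finite ∧ ∀ γ : RF p, γ ∉ Γ → ∃ (c : K.A) (R : Polynomial K.A),
      res (c : ℂ_[p]) = γ ∧ R.Monic ∧ R1aLoc K c R ∧
      ∀ τ : ℂ_[p], IsAlgebraic ℚ_[p] τ → τ ∉ K.A → (K.χ τ).eval (c : ℂ_[p]) ≠ 0 := by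
  classical
  obtain ⟨Γ, hΓ, hΓ2⟩ := hFND p n pp K
  refine ⟨Γ, hΓ, fun γ hγ => ?_⟩
  obtain ⟨DD, hDD, hg, hdis, hv, hτ⟩ := hΓ2 γ hγ
  -- the constants of the discs and the exceptional sets
  have hex : ∀ d : K.A × K.A, ∃ (φ : Polynomial (RF p)) (S : Set K.A), S.Finite ∧ (d ∈ DD →
      GD K d.1 ‖(d.2 : ℂ_[p])‖ φ ∧ ∀ c : K.A, ‖(c : ℂ_[p])‖ ≤ 1 → c ∉ S →
      ∀ E : IntermediateField ℚ_[p] ℂ_[p], FiniteDimensional ℚ_[p] E → K.E₀ ≤ E →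
      (d.1 : ℂ_[p]) ∈ E → (d.2 : ℂ_[p]) ∈ E → (c : ℂ_[p]) ∈ E →
      ∃ P : Polynomial K.A, P.Monic ∧ (∀ j, ((P.coeff j : K.A) : ℂ_[p]) ∈ E) ∧
        (∀ v : K.A, P.eval v = 0 → ‖(v : ℂ_[p]) - d.1‖ < ‖(d.2 : ℂ_[p])‖) ∧
        (∀ τ : ℂ_[p], IsAlgebraic ℚ_[p] τ → τ ∉ K.A → ‖τ - d.1‖ < ‖(d.2 : ℂ_[p])‖ →
          (K.χ τ).eval (c : ℂ_[p]) ≠ 0) ∧
        ∀ c' : K.A, ‖(c' : ℂ_[p])‖ ≤ 1 → φ.eval (res (c' : ℂ_[p])) ≠ 0 → ∀ m : ℕ, 0 < m →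
          ∀ v : K.A, ‖(v : ℂ_[p]) - d.1‖ < ‖(d.2 : ℂ_[p])‖ →
          (m : ℤ) ∣ ordv K.A v (K.H m (RatFunc.C c)) - ordv K.A v (K.H m (RatFunc.C c')) -
            P.rootMultiplicity v) := by
    intro d
    by_cases hd : d ∈ DD
    · obtain ⟨hd2, φ, hφ⟩ := hg d hd
      obtain ⟨S, hS, hS2⟩ := hDSK p n pp K d.1 d.2 φ hd2 hφ
      exact ⟨φ, S, hS, fun _ => ⟨hφ, hS2⟩⟩
    · exact ⟨0, ∅, Set.finite_empty, fun h => absurd h hd⟩
  choose φ S hS hφS using hex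
  -- the constant
  have hU : (⋃ d ∈ DD, S d).Finite := Set.Finite.biUnion hDD fun d _ => hS d
  obtain ⟨c, hc, hcU⟩ := ((hDNS p K.A K.acl).2 γ).exists_notMem_finite hU
  obtain ⟨hc1, hcγ⟩ := hc
  have hcS : ∀ d ∈ DD, c ∉ S d := by
    intro d hd h
    exact hcU (Set.mem_biUnion hd h)
  have hexP : ∀ d : K.A × K.A, ∃ P : Polynomial K.A, d ∈ DD → P.Monic ∧
      (∀ v : K.A, P.eval v = 0 → ‖(v : ℂ_[p]) - d.1‖ < ‖(d.2 : ℂ_[p])‖) ∧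
      (∀ τ : ℂ_[p], IsAlgebraic ℚ_[p] τ → τ ∉ K.A → ‖τ - d.1‖ < ‖(d.2 : ℂ_[p])‖ →
        (K.χ τ).eval (c : ℂ_[p]) ≠ 0) ∧
      ∀ c' : K.A, ‖(c' : ℂ_[p])‖ ≤ 1 → (φ d).eval (res (c' : ℂ_[p])) ≠ 0 → ∀ m : ℕ, 0 < m →
        ∀ v : K.A, ‖(v : ℂ_[p]) - d.1‖ < ‖(d.2 : ℂ_[p])‖ →
        (m : ℤ) ∣ ordv K.A v (K.H m (RatFunc.C c)) - ordv K.A v (K.H m (RatFunc.C c')) -
          P.rootMultiplicity v := by
    intro d
    by_cases hd : d ∈ DD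
    · obtain ⟨E, hE, hE0, hEx, hEy, hEz⟩ := r1a_fin K.E₀ K.fin₀ (d.1 : ℂ_[p]) (d.2 : ℂ_[p])
        (c : ℂ_[p]) (K.alg _ d.1.2) (K.alg _ d.2.2) (K.alg _ c.2)
      obtain ⟨P, hP1, _, hP3, hP4, hP5⟩ := (hφS d hd).2 c hc1 (hcS d hd) E hE hE0 hEx hEy hEz
      exact ⟨P, fun _ => ⟨hP1, hP3, hP4, hP5⟩⟩
    · exact ⟨0, fun h => absurd h hd⟩
  choose P hP using hexP
  refine ⟨c, ∏ d ∈ hDD.toFinset, P d, hcγ, ?_, ?_, ?_⟩
  · apply monic_prod_of_monic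
    intro d hd
    exact (hP d (hDD.mem_toFinset.1 hd)).1
  · intro v
    by_cases hvd : ∃ d ∈ DD, ‖(v : ℂ_[p]) - d.1‖ < ‖(d.2 : ℂ_[p])‖
    · obtain ⟨d, hd, hd2⟩ := hvd
      have hG := (hφS d hd).1
      refine ⟨φ d, ‖(d.2 : ℂ_[p])‖, hG.1, hG.2.1, fun ϖ h1 h2 => hG.2.2.2 v ϖ hd2 h1 h2, ?_⟩
      intro c' hc' hc'2 m hm
      rw [r1a_rm hDD.toFinset P (fun i hi => (hP i (hDD.mem_toFinset.1 hi)).1) v d ?_
        (hDD.mem_toFinset.2 hd)]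
      · exact (hP d hd).2.2.2 c' hc' hc'2 m hm v hd2
      · intro d' hd' hne h0
        have hd'D := hDD.mem_toFinset.1 hd'
        have h3 := (hP d' hd'D).2.1 v h0
        have h4 := hdis d hd d' hd'D hne.symm
        have h5 := hdis d' hd'D d hd hne
        -- ultrametric
        have h6 : ‖(d.1 : ℂ_[p]) - d'.1‖ ≤ max ‖(v : ℂ_[p]) - d'.1‖ ‖(v : ℂ_[p]) - d.1‖ := by
          have h7 : (d.1 : ℂ_[p]) - d'.1 = ((v : ℂ_[p]) - d'.1) + -((v : ℂ_[p]) - d.1) := by ring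
          rw [h7]
          refine (PadicComplex.isNonarchimedean p _ _).trans ?_
          rw [norm_neg]
        have h8 : ‖(d'.1 : ℂ_[p]) - d.1‖ = ‖(d.1 : ℂ_[p]) - d'.1‖ := norm_sub_rev _ _
        rw [h8] at h5
        have h9 : ‖(d.1 : ℂ_[p]) - d'.1‖ < ‖(d.1 : ℂ_[p]) - d'.1‖ :=
          h6.trans_lt (max_lt (h3.trans_le h5) (hd2.trans_le h4))
        exact lt_irrefl _ h9
    · obtain ⟨ψ, r₀, hr₀, hψ, hCT⟩ := (hv v).resolve_left hvd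
      refine ⟨ψ, r₀, hr₀, ?_, hCT, ?_⟩
      · intro h0
        rw [h0, eval_zero] at hψ
        exact hψ rfl
      · intro c' hc' hc'2 m hm
        rw [r1a_rm0 hDD.toFinset P v ?_]
        · have h1 := hL4 p n pp K v r₀ ψ hr₀ hCT c c' hc1 hc' (by rw [hcγ]; exact hψ) hc'2 m hm
          simpa using h1
        · intro d hd h0
          exact hvd ⟨d, hDD.mem_toFinset.1 hd, (hP d (hDD.mem_toFinset.1 hd)).2.1 v h0⟩
  · intro τ hτa hτA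
    rcases hτ τ hτa hτA with ⟨d, hd, hd2⟩ | ⟨ψ, hψ, hψγ⟩
    · exact (hP d hd).2.2.1 τ hτa hτA hd2
    · exact ((hRDU p (K.χ τ)).2.2.2.2 ψ (c : ℂ_[p]) (c : ℂ_[p]) hψ hc1 hc1
        (by rw [hcγ]; exact hψγ)).1

end

theorem st_R1A (hFND : ST_FND) (hDSK : ST_DSK) (hL4 : ST_L4) (hDIC : ST_DIC) (hDNS : ST_DNS)
    (hRFA : ST_RFA) (hRDU : ST_RDU) (hORD : ST_ORD) : ST_R1A := by
  classical
  intro p n _ pp K
  obtain ⟨Γ, hΓ, h⟩ := r1a_one pp hFND hDSK hL4 hDNS hRDU K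
  have hac : IsAlgClosed (RF p) := (hRFA p).1
  have hinf : Infinite (RF p) := IsAlgClosed.instInfinite
  have hinf2 : (Γᶜ : Set (RF p)).Infinite := hΓ.infinite_compl
  have hch : ∀ γ : (Γᶜ : Set (RF p)), ∃ (c : K.A) (R : Polynomial K.A),
      res (c : ℂ_[p]) = γ ∧ R.Monic ∧ R1aLoc K c R ∧
      ∀ τ : ℂ_[p], IsAlgebraic ℚ_[p] τ → τ ∉ K.A → (K.χ τ).eval (c : ℂ_[p]) ≠ 0 :=
    fun γ => h γ.1 γ.2
  choose c R hc hR hloc hnz using hch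
  let e := Set.Infinite.natEmbedding _ hinf2
  refine ⟨fun i => c (e i), ?_, fun i τ h1 h2 => hnz (e i) τ h1 h2, ?_⟩
  · intro i j hij
    have h1 : res ((c (e i) : K.A) : ℂ_[p]) = res ((c (e j) : K.A) : ℂ_[p]) := by
      have h2 : c (e i) = c (e j) := hij
      rw [h2]
    rw [hc, hc] at h1
    exact e.injective (Subtype.ext h1)
  · intro i j
    have hi0 : algebraMap (Polynomial K.A) (RatFunc K.A) (R (e i)) ≠ 0 :=
      RatFunc.algebraMap_ne_zero (hR (e i)).ne_zero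
    have hj0 : algebraMap (Polynomial K.A) (RatFunc K.A) (R (e j)) ≠ 0 :=
      RatFunc.algebraMap_ne_zero (hR (e j)).ne_zero
    refine ⟨algebraMap (Polynomial K.A) (RatFunc K.A) (R (e i)) *
      (algebraMap (Polynomial K.A) (RatFunc K.A) (R (e j)))⁻¹,
      mul_ne_zero hi0 (inv_ne_zero hj0), ?_⟩
    intro m hm v
    obtain ⟨o1, o2, _, _, o5⟩ := hORD p K.A
    rw [o1 v _ _ hi0 (inv_ne_zero hj0), o2 v _ hj0, o5 v _ (hR (e i)).ne_zero,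
      o5 v _ (hR (e j)).ne_zero, ← sub_eq_add_neg]
    exact r1a_comb pp hDIC K _ _ _ _ (hloc (e i)) (hloc (e j)) m hm v

end Pool.Agent.Helper60.FF
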