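import Pool.Agent.Helper24.FF.Stmts

/-! Full list for MP_866009_co, part F, module SB1. -/

set_option autoImplicit false

namespace Pool.Agent.Helper24.FF

open Pool.Agent.Helper64.CT Pool.Agent.Helper64.DT Pool.Agent.Helper64.FL
open Pool.Agent.Helper64.HG (Ovl Model Circ IC HellyCircle ChordModel)

lemma sb1_sym {V : Type} {H G : SimpleGraph V} {S : Set V} {u v x : V} (h : Sub1 H G S u v x) :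
    Sub1 H G S v u x where
  uS := h.vS
  vS := h.uS
  xS := h.xS
  uv := h.uv.symm
  same := fun y hy z hz h1 h2 => h.same y hy z hz h2 h1
  nuv := fun q => h.nuv q.symm
  nx := fun y hy => (h.nx y hy).trans Or.comm

/-- the chord of `y` crosses the chord with the ends `p`, `q` -/
def sb1_cr {V : Type} (a b : V → ℤ) (p q : ℤ) (y : V) : Prop := ¬ (bt p q (a y) ↔ bt p q (b y))

lemma sb1_type (U1 V1 U2 V2 α β : ℤ) (h1 : U1 < V1) (h2 : V1 < U2) (h3 : U2 < V2)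
    (hd : α ≠ U1 ∧ α ≠ V1 ∧ α ≠ U2 ∧ α ≠ V2 ∧ β ≠ U1 ∧ β ≠ V1 ∧ β ≠ U2 ∧ β ≠ V2)
    (hn : ¬ (¬ (bt U1 U2 α ↔ bt U1 U2 β) ∧ ¬ (bt V1 V2 α ↔ bt V1 V2 β)))
    (he : ¬ (arc U1 V1 α ↔ arc U1 V1 β) ∨ ¬ (arc V1 U2 α ↔ arc V1 U2 β) ∨
      ¬ (arc U2 V2 α ↔ arc U2 V2 β) ∨ ¬ (arc V2 U1 α ↔ arc V2 U1 β)) :
    (¬ (bt U1 U2 α ↔ bt U1 U2 β)) ∨ ¬ (bt V1 V2 α ↔ bt V1 V2 β) := by
  unfold bt arc at *
  omega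

lemma sb1_c13 (U1 V1 U2 V2 α β : ℤ) (h1 : U1 < V1) (h2 : V1 < U2) (h3 : U2 < V2)
    (hd : α ≠ U1 ∧ α ≠ V1 ∧ α ≠ U2 ∧ α ≠ V2 ∧ β ≠ U1 ∧ β ≠ V1 ∧ β ≠ U2 ∧ β ≠ V2)
    (hn : ¬ (¬ (bt U1 U2 α ↔ bt U1 U2 β) ∧ ¬ (bt V1 V2 α ↔ bt V1 V2 β)))
    (e1 : ¬ (arc U1 V1 α ↔ arc U1 V1 β)) (e3 : ¬ (arc U2 V2 α ↔ arc U2 V2 β)) : False := by
  unfold bt arc at *
  omega

lemma sb1_c24 (U1 V1 U2 V2 α β : ℤ) (h1 : U1 < V1) (h2 : V1 < U2) (h3 : U2 < V2)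
    (hd : α ≠ U1 ∧ α ≠ V1 ∧ α ≠ U2 ∧ α ≠ V2 ∧ β ≠ U1 ∧ β ≠ V1 ∧ β ≠ U2 ∧ β ≠ V2)
    (hn : ¬ (¬ (bt U1 U2 α ↔ bt U1 U2 β) ∧ ¬ (bt V1 V2 α ↔ bt V1 V2 β)))
    (e1 : ¬ (arc V1 U2 α ↔ arc V1 U2 β)) (e3 : ¬ (arc V2 U1 α ↔ arc V2 U1 β)) : False := by
  unfold bt arc at *
  omega

/-- both conditions determine the crossed chord -/
lemma sb1_c12 (U1 V1 U2 V2 α β : ℤ) (h1 : U1 < V1) (h2 : V1 < U2) (h3 : U2 < V2)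
    (hd : α ≠ U1 ∧ α ≠ V1 ∧ α ≠ U2 ∧ α ≠ V2 ∧ β ≠ U1 ∧ β ≠ V1 ∧ β ≠ U2 ∧ β ≠ V2)
    (e1 : ¬ (arc U1 V1 α ↔ arc U1 V1 β)) (e2 : ¬ (arc V1 U2 α ↔ arc V1 U2 β)) :
    (bt U1 U2 α ↔ bt U1 U2 β) ∧ ¬ (bt V1 V2 α ↔ bt V1 V2 β) := by
  unfold bt arc at *
  omega

lemma sb1_c23 (U1 V1 U2 V2 α β : ℤ) (h1 : U1 < V1) (h2 : V1 < U2) (h3 : U2 < V2)
    (hd : α ≠ U1 ∧ α ≠ V1 ∧ α ≠ U2 ∧ α ≠ V2 ∧ β ≠ U1 ∧ β ≠ V1 ∧ β ≠ U2 ∧ β ≠ V2)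
    (e1 : ¬ (arc V1 U2 α ↔ arc V1 U2 β)) (e2 : ¬ (arc U2 V2 α ↔ arc U2 V2 β)) :
    (bt V1 V2 α ↔ bt V1 V2 β) ∧ ¬ (bt U1 U2 α ↔ bt U1 U2 β) := by
  unfold bt arc at *
  omega

lemma sb1_c34 (U1 V1 U2 V2 α β : ℤ) (h1 : U1 < V1) (h2 : V1 < U2) (h3 : U2 < V2)
    (hd : α ≠ U1 ∧ α ≠ V1 ∧ α ≠ U2 ∧ α ≠ V2 ∧ β ≠ U1 ∧ β ≠ V1 ∧ β ≠ U2 ∧ β ≠ V2)
    (e1 : ¬ (arc U2 V2 α ↔ arc U2 V2 β)) (e2 : ¬ (arc V2 U1 α ↔ arc V2 U1 β)) :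
    (bt U1 U2 α ↔ bt U1 U2 β) ∧ ¬ (bt V1 V2 α ↔ bt V1 V2 β) := by
  unfold bt arc at *
  omega

lemma sb1_c14 (U1 V1 U2 V2 α β : ℤ) (h1 : U1 < V1) (h2 : V1 < U2) (h3 : U2 < V2)
    (hd : α ≠ U1 ∧ α ≠ V1 ∧ α ≠ U2 ∧ α ≠ V2 ∧ β ≠ U1 ∧ β ≠ V1 ∧ β ≠ U2 ∧ β ≠ V2)
    (e1 : ¬ (arc U1 V1 α ↔ arc U1 V1 β)) (e2 : ¬ (arc V2 U1 α ↔ arc V2 U1 β)) :
    (bt V1 V2 α ↔ bt V1 V2 β) ∧ ¬ (bt U1 U2 α ↔ bt U1 U2 β) := by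
  unfold bt arc at *
  omega

lemma sb1_core {V : Type} (a b : V → ℤ) (Y : V → Prop) (U1 V1 U2 V2 : ℤ) (h1 : U1 < V1)
    (h2 : V1 < U2) (h3 : U2 < V2)
    (hd : ∀ y, Y y → a y ≠ U1 ∧ a y ≠ V1 ∧ a y ≠ U2 ∧ a y ≠ V2 ∧ b y ≠ U1 ∧ b y ≠ V1 ∧
      b y ≠ U2 ∧ b y ≠ V2)
    (hu : ∀ y z, Y y → Y z → sb1_cr a b U1 U2 y → sb1_cr a b U1 U2 z → y = z)
    (hv : ∀ y z, Y y → Y z → sb1_cr a b V1 V2 y → sb1_cr a b V1 V2 z → y = z)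
    (huv : ∀ y, Y y → ¬ (sb1_cr a b U1 U2 y ∧ sb1_cr a b V1 V2 y)) :
    (∀ y, Y y → (arc U1 V1 (a y) ↔ arc U1 V1 (b y))) ∨
    (∀ y, Y y → (arc V1 U2 (a y) ↔ arc V1 U2 (b y))) ∨
    (∀ y, Y y → (arc U2 V2 (a y) ↔ arc U2 V2 (b y))) ∨
    (∀ y, Y y → (arc V2 U1 (a y) ↔ arc V2 U1 (b y))) := by
  by_contra hcon
  rw [not_or, not_or, not_or] at hcon
  obtain ⟨n1, n2, n3, n4⟩ := hcon
  rw [not_forall] at n1 n2 n3 n4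
  obtain ⟨y1, n1⟩ := n1
  obtain ⟨y2, n2⟩ := n2
  obtain ⟨y3, n3⟩ := n3
  obtain ⟨y4, n4⟩ := n4
  rw [Classical.not_imp] at n1 n2 n3 n4
  obtain ⟨k1, e1⟩ := n1
  obtain ⟨k2, e2⟩ := n2
  obtain ⟨k3, e3⟩ := n3
  obtain ⟨k4, e4⟩ := n4
  have t1 := sb1_type U1 V1 U2 V2 _ _ h1 h2 h3 (hd y1 k1) (huv y1 k1) (Or.inl e1)
  have t2 := sb1_type U1 V1 U2 V2 _ _ h1 h2 h3 (hd y2 k2) (huv y2 k2) (Or.inr (Or.inl e2))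
  have t3 := sb1_type U1 V1 U2 V2 _ _ h1 h2 h3 (hd y3 k3) (huv y3 k3)
    (Or.inr (Or.inr (Or.inl e3)))
  have t4 := sb1_type U1 V1 U2 V2 _ _ h1 h2 h3 (hd y4 k4) (huv y4 k4)
    (Or.inr (Or.inr (Or.inr e4)))
  -- `y1 ≠ y3` and `y2 ≠ y4`
  have d13 : y1 ≠ y3 := by
    rintro rfl
    exact sb1_c13 U1 V1 U2 V2 _ _ h1 h2 h3 (hd y1 k1) (huv y1 k1) e1 e3
  have d24 : y2 ≠ y4 := by
    rintro rfl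
    exact sb1_c24 U1 V1 U2 V2 _ _ h1 h2 h3 (hd y2 k2) (huv y2 k2) e2 e4
  rcases t1 with t1 | t1
  · rcases t3 with t3 | t3
    · exact d13 (hu y1 y3 k1 k3 t1 t3)
    · -- `y1` crosses `u`, `y3` crosses `v`
      rcases t2 with t2 | t2
      · obtain rfl := hu y1 y2 k1 k2 t1 t2
        exact t1 (sb1_c12 U1 V1 U2 V2 _ _ h1 h2 h3 (hd y1 k1) e1 e2).1
      · obtain rfl := hv y3 y2 k3 k2 t3 t2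
        exact t3 (sb1_c23 U1 V1 U2 V2 _ _ h1 h2 h3 (hd y3 k3) e2 e3).1
  · rcases t3 with t3 | t3
    · -- `y1` crosses `v`, `y3` crosses `u`
      rcases t4 with t4 | t4
      · obtain rfl := hu y3 y4 k3 k4 t3 t4
        exact t3 (sb1_c34 U1 V1 U2 V2 _ _ h1 h2 h3 (hd y3 k3) e3 e4).1
      · obtain rfl := hv y1 y4 k1 k4 t1 t4
        exact t1 (sb1_c14 U1 V1 U2 V2 _ _ h1 h2 h3 (hd y1 k1) e1 e4).1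
    · exact d13 (hv y1 y3 k1 k3 t1 t3)

lemma sb1_bt (p q r : ℤ) : bt p q r ↔ bt q p r := by
  unfold bt
  exact Or.comm

lemma sb1_adj {V : Type} {H : SimpleGraph V} {S : Set V} {a b : V → ℤ} (hM : CM H S a b)
    {u y : V} (hu : u ∈ S) (hy : y ∈ S) (huy : u ≠ y) {p p' : ℤ}
    (h : (a u = p ∧ b u = p') ∨ (a u = p' ∧ b u = p)) : H.Adj u y ↔ sb1_cr a b p p' y := by
  rw [hM.ad u hu y hy huy]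
  unfold sb1_cr
  rcases h with ⟨h1, h2⟩ | ⟨h1, h2⟩
  · rw [h1, h2]
  · rw [h1, h2, sb1_bt p' p, sb1_bt p' p]

lemma sb1_main (h0 : ST_SB0) {V : Type} {H G : SimpleGraph V} {S : Set V} {u v x : V}
    {a b : V → ℤ} (hM : CM H S a b) (hs : Sub1 H G S u v x) (huv : u ≠ v)
    (du : ∀ y ∈ S, ∀ z ∈ S, y ≠ v → z ≠ v → H.Adj u y → H.Adj u z → y = z)
    (dv : ∀ y ∈ S, ∀ z ∈ S, y ≠ u → z ≠ u → H.Adj v y → H.Adj v z → y = z)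
    (nc : ∀ y ∈ S, ¬ (H.Adj u y ∧ H.Adj v y)) {U1 V1 U2 V2 : ℤ} (h1 : U1 < V1)
    (h2 : V1 < U2) (h3 : U2 < V2) (eu : (a u = U1 ∧ b u = U2) ∨ (a u = U2 ∧ b u = U1))
    (ev : (a v = V1 ∧ b v = V2) ∨ (a v = V2 ∧ b v = V1)) : CE G (insert x S) := by
  have core := sb1_core a b (fun y => y ∈ S ∧ y ≠ u ∧ y ≠ v) U1 V1 U2 V2 h1 h2 h3
    (by
      rintro y ⟨hy, yu, yv⟩
      have d1 := hM.ds y hy u hs.uS yu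
      have d2 := hM.ds y hy v hs.vS yv
      rcases eu with ⟨r1, r2⟩ | ⟨r1, r2⟩ <;> rcases ev with ⟨r3, r4⟩ | ⟨r3, r4⟩ <;>
        rw [r1, r2] at d1 <;> rw [r3, r4] at d2 <;>
        exact ⟨by tauto, by tauto, by tauto, by tauto, by tauto, by tauto, by tauto, by tauto⟩)
    (by
      rintro y z ⟨hy, yu, yv⟩ ⟨hz, zu, zv⟩ cy cz
      exact du y hy z hz yv zv ((sb1_adj hM hs.uS hy yu.symm eu).2 cy)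
        ((sb1_adj hM hs.uS hz zu.symm eu).2 cz))
    (by
      rintro y z ⟨hy, yu, yv⟩ ⟨hz, zu, zv⟩ cy cz
      exact dv y hy z hz yu zu ((sb1_adj hM hs.vS hy yv.symm ev).2 cy)
        ((sb1_adj hM hs.vS hz zv.symm ev).2 cz))
    (by
      rintro y ⟨hy, yu, yv⟩ ⟨c1, c2⟩
      exact nc y hy ⟨(sb1_adj hM hs.uS hy yu.symm eu).2 c1,
        (sb1_adj hM hs.vS hy yv.symm ev).2 c2⟩)
  rcases core with c | c | c | c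
  · refine h0 V H G S a b u v x U1 U2 V1 V2 hM hs huv eu ev ?_ ?_
      (fun y hy yu yv => c y ⟨hy, yu, yv⟩)
    · unfold arc; omega
    · unfold arc; omega
  · refine h0 V H G S a b v u x V1 V2 U2 U1 hM (sb1_sym hs) huv.symm ev eu.symm ?_ ?_
      (fun y hy yv yu => c y ⟨hy, yu, yv⟩)
    · unfold arc; omega
    · unfold arc; omega
  · refine h0 V H G S a b u v x U2 U1 V2 V1 hM hs huv eu.symm ev.symm ?_ ?_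
      (fun y hy yu yv => c y ⟨hy, yu, yv⟩)
    · unfold arc; omega
    · unfold arc; omega
  · refine h0 V H G S a b v u x V2 V1 U1 U2 hM (sb1_sym hs) huv.symm ev.symm eu ?_ ?_
      (fun y hy yv yu => c y ⟨hy, yu, yv⟩)
    · unfold arc; omega
    · unfold arc; omega

lemma sb1_ends (p q : ℤ) (h : p ≠ q) : ∃ r s : ℤ, r < s ∧ ((p = r ∧ q = s) ∨ (p = s ∧ q = r)) := by
  rcases lt_or_gt_of_ne h with h | h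
  · exact ⟨p, q, h, Or.inl ⟨rfl, rfl⟩⟩
  · exact ⟨q, p, h, Or.inr ⟨rfl, rfl⟩⟩

theorem st_SB1 (h1 : ST_SB0) : ST_SB1 := by
  intro V H G S u v x hCE hs huv du dv nc
  obtain ⟨a, b, hM⟩ := hCE
  obtain ⟨U1, U2, hU, eu⟩ := sb1_ends (a u) (b u) (hM.ne u hs.uS)
  obtain ⟨V1, V2, hV, ev⟩ := sb1_ends (a v) (b v) (hM.ne v hs.vS)
  have hc : sb1_cr a b U1 U2 v := (sb1_adj hM hs.uS hs.vS huv eu).1 hs.uv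
  have hd := hM.ds u hs.uS v hs.vS huv
  have key : (U1 < V1 ∧ V1 < U2 ∧ U2 < V2) ∨ (V1 < U1 ∧ U1 < V2 ∧ V2 < U2) := by
    unfold sb1_cr bt at hc
    rcases eu with ⟨r1, r2⟩ | ⟨r1, r2⟩ <;> rcases ev with ⟨r3, r4⟩ | ⟨r3, r4⟩ <;> omega
  rcases key with ⟨k1, k2, k3⟩ | ⟨k1, k2, k3⟩
  · exact sb1_main h1 hM hs huv du dv nc k1 k2 k3 eu ev
  · exact sb1_main h1 hM (sb1_sym hs) huv.symm dv du (fun y hy q => nc y hy q.symm) k1 k2 k3 ev eu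

end Pool.Agent.Helper24.FF
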